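import Pool.Agent.helper15.LC.Spec

/-!
# MP_7c3fb3_pr, row lc:LYA: contraction of the bilinear polynomial
-/

set_option autoImplicit false

open Finset Filter Topology

namespace CO

open CU

/-- expansion of the square of the norm of a sum -/
theorem LYA_sq (A B : ℂ) : ‖A + B‖ ^ 2 = ‖A‖ ^ 2 + ‖B‖ ^ 2 + 2 * (A * (starRingEnd ℂ) B).re := by
  rw [← Complex.normSq_eq_norm_sq, ← Complex.normSq_eq_norm_sq, ← Complex.normSq_eq_norm_sq, Complex.normSq_add]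

/-- a zero of a linear polynomial -/
theorem LYA_lin (a b : ℂ) (ha : a ≠ 0) (h : ∀ z : ℂ, 1 < ‖z‖ → a * z + b ≠ 0) : ‖b‖ ≤ ‖a‖ := by
  by_contra hlt
  rw [not_le] at hlt
  have ha0 : 0 < ‖a‖ := norm_pos_iff.2 ha
  refine h (-b / a) ?_ ?_
  · rw [norm_div, norm_neg, one_lt_div ha0]
    exact hlt
  · field_simp
    ring

/-- step (2) -/
theorem LYA_two (α β γ δ : ℂ) (hw : ∀ w : ℂ, 1 < ‖w‖ → α * w + β ≠ 0)
    (h : ∀ z w : ℂ, 1 < ‖z‖ → 1 < ‖w‖ → α * z * w + β * z + γ * w + δ ≠ 0) (w : ℂ) (h1 : 1 ≤ ‖w‖) :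
    ‖γ * w + δ‖ ≤ ‖α * w + β‖ := by
  have key : ∀ w : ℂ, 1 < ‖w‖ → ‖γ * w + δ‖ ≤ ‖α * w + β‖ := by
    intro w hw1
    refine LYA_lin (α * w + β) (γ * w + δ) (hw w hw1) ?_
    intro z hz h0
    refine h z w hz hw1 ?_
    rw [← h0]
    ring
  have h2 : Tendsto (fun s : ℝ => ‖γ * ((s : ℂ) * w) + δ‖) (𝓝[>] 1) (𝓝 ‖γ * w + δ‖) := by
    have hc : Continuous (fun s : ℝ => ‖γ * ((s : ℂ) * w) + δ‖) := by fun_prop
    refine (hc.tendsto' 1 _ ?_).mono_left nhdsWithin_le_nhds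
    simp
  have h3 : Tendsto (fun s : ℝ => ‖α * ((s : ℂ) * w) + β‖) (𝓝[>] 1) (𝓝 ‖α * w + β‖) := by
    have hc : Continuous (fun s : ℝ => ‖α * ((s : ℂ) * w) + β‖) := by fun_prop
    refine (hc.tendsto' 1 _ ?_).mono_left nhdsWithin_le_nhds
    simp
  refine le_of_tendsto_of_tendsto h2 h3 ?_
  filter_upwards [self_mem_nhdsWithin] with s hs
  have hs1 : (1 : ℝ) < s := hs
  refine key _ ?_
  rw [norm_mul, Complex.norm_real, Real.norm_eq_abs, abs_of_pos (by linarith)]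
  nlinarith

theorem LYA : LYA_stmt := by
  intro α β γ δ t ht0 ht1 hα hw hz hzw z w hz1 hw1
  have hβα : ‖β‖ ≤ ‖α‖ := LYA_lin α β hα hw
  have h2 := LYA_two α β γ δ hw hzw
  have h2' := LYA_two α γ β δ hz (fun w z hw hz h0 => hzw z w hz hw (by rw [← h0]; ring))
  -- the real numbers
  obtain ⟨a, ha⟩ : ∃ a, a = ‖α‖ ^ 2 := ⟨_, rfl⟩
  obtain ⟨b, hb⟩ : ∃ b, b = ‖β‖ ^ 2 := ⟨_, rfl⟩
  obtain ⟨c, hc⟩ : ∃ c, c = ‖γ‖ ^ 2 := ⟨_, rfl⟩
  obtain ⟨d, hd⟩ : ∃ d, d = ‖δ‖ ^ 2 := ⟨_, rfl⟩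
  have hba : b ≤ a := by
    rw [ha, hb]
    exact pow_le_pow_left₀ (norm_nonneg _) hβα 2
  have ha0 : 0 ≤ a := by rw [ha]; positivity
  have hb0 : 0 ≤ b := by rw [hb]; positivity
  have hc0 : 0 ≤ c := by rw [hc]; positivity
  have hd0 : 0 ≤ d := by rw [hd]; positivity
  -- the general inequality for unit vectors
  have h3 : ∀ v : ℂ, ‖v‖ = 1 → 2 * ((γ * v) * (starRingEnd ℂ) δ).re - 2 * ((α * v) * (starRingEnd ℂ) β).re ≤ a + b - c - d := by
    intro v hv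
    have h4 := pow_le_pow_left₀ (norm_nonneg _) (h2 v hv.ge) 2
    rw [LYA_sq, LYA_sq, norm_mul, norm_mul, hv, mul_one, mul_one, ← ha, ← hb, ← hc, ← hd] at h4
    linarith
  have hXY : 0 ≤ a + b - c - d := by
    have h4 := h3 1 norm_one
    have h5 := h3 (-1) (by rw [norm_neg, norm_one])
    rw [mul_one, mul_one] at h4
    rw [mul_neg, mul_neg, mul_one, mul_one, neg_mul, neg_mul, Complex.neg_re, Complex.neg_re] at h5
    linarith
  have hXY' : 0 ≤ a - b + c - d := by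
    have h4 := pow_le_pow_left₀ (norm_nonneg _) (h2' 1 norm_one.ge) 2
    have h5 := pow_le_pow_left₀ (norm_nonneg _) (h2' (-1) (by rw [norm_neg, norm_one])) 2
    rw [mul_one, mul_one, LYA_sq, LYA_sq, ← ha, ← hb, ← hc, ← hd] at h4
    rw [mul_neg, mul_neg, mul_one, mul_one, LYA_sq, LYA_sq, norm_neg, norm_neg, ← ha, ← hb, ← hc, ← hd, neg_mul,
      neg_mul, Complex.neg_re, Complex.neg_re] at h5
    linarith
  obtain ⟨R, hR⟩ : ∃ R, R = ‖w‖ := ⟨_, rfl⟩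
  rw [← hR] at hw1
  have hR0 : 0 < R := by linarith
  have hRC : (R : ℂ) ≠ 0 := by exact_mod_cast hR0.ne'
  -- the claim
  have e1 : ‖α * w + t * β‖ ^ 2 = R ^ 2 * a + t ^ 2 * b + 2 * t * ((α * w) * (starRingEnd ℂ) β).re := by
    rw [LYA_sq, norm_mul, norm_mul, Complex.norm_real, Real.norm_eq_abs, abs_of_pos ht0, ← hR]
    have h4 : (α * w * (starRingEnd ℂ) ((t : ℂ) * β)).re = t * ((α * w) * (starRingEnd ℂ) β).re := by
      rw [map_mul, Complex.conj_ofReal]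
      have h5 : α * w * ((t : ℂ) * (starRingEnd ℂ) β) = (t : ℂ) * (α * w * (starRingEnd ℂ) β) := by ring
      rw [h5, Complex.re_ofReal_mul]
    rw [h4, mul_pow, mul_pow, ← ha, ← hb]
    ring
  have e2 : ‖t * γ * w + δ‖ ^ 2 = t ^ 2 * R ^ 2 * c + d + 2 * t * ((γ * w) * (starRingEnd ℂ) δ).re := by
    rw [LYA_sq, norm_mul, norm_mul, Complex.norm_real, Real.norm_eq_abs, abs_of_pos ht0, ← hR]
    have h4 : ((t : ℂ) * γ * w * (starRingEnd ℂ) δ).re = t * ((γ * w) * (starRingEnd ℂ) δ).re := by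
      have h5 : (t : ℂ) * γ * w * (starRingEnd ℂ) δ = (t : ℂ) * (γ * w * (starRingEnd ℂ) δ) := by ring
      rw [h5, Complex.re_ofReal_mul]
    rw [h4, mul_pow, mul_pow, ← hc, ← hd]
    ring
  have hclaim2 : ‖t * γ * w + δ‖ ^ 2 ≤ ‖α * w + t * β‖ ^ 2 := by
    rcases le_or_gt 1 (t * R) with htR | htR
    · -- `t R ≥ 1`
      have h4 : ‖γ * ((t : ℂ) * w) + δ‖ ≤ ‖α * ((t : ℂ) * w) + β‖ := by
        refine h2 _ ?_
        rw [norm_mul, Complex.norm_real, Real.norm_eq_abs, abs_of_pos ht0, ← hR]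
        exact htR
      have h5 := pow_le_pow_left₀ (norm_nonneg _) h4 2
      have h6 : γ * ((t : ℂ) * w) = t * γ * w := by ring
      rw [h6] at h5
      have e3 : ‖α * ((t : ℂ) * w) + β‖ ^ 2 = t ^ 2 * R ^ 2 * a + b + 2 * t * ((α * w) * (starRingEnd ℂ) β).re := by
        rw [LYA_sq, norm_mul, norm_mul, Complex.norm_real, Real.norm_eq_abs, abs_of_pos ht0, ← hR]
        have h7 : (α * ((t : ℂ) * w) * (starRingEnd ℂ) β).re = t * ((α * w) * (starRingEnd ℂ) β).re := by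
          have h8 : α * ((t : ℂ) * w) * (starRingEnd ℂ) β = (t : ℂ) * (α * w * (starRingEnd ℂ) β) := by ring
          rw [h8, Complex.re_ofReal_mul]
        rw [h7, mul_pow, mul_pow, ← ha, ← hb]
        ring
      refine h5.trans ?_
      rw [e1, e3]
      have h7 : 0 ≤ (1 - t ^ 2) * (R ^ 2 * a - b) := by
        refine mul_nonneg (by nlinarith) ?_
        have g1 : 1 ≤ R ^ 2 := one_le_pow₀ hw1.le
        have g2 : 1 * a ≤ R ^ 2 * a := mul_le_mul_of_nonneg_right g1 ha0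
        linarith
      linarith
    · -- `t R < 1`
      have h4 := h3 ((R : ℂ)⁻¹ * w) (by
        rw [norm_mul, norm_inv, Complex.norm_real, Real.norm_eq_abs, abs_of_pos hR0, ← hR]
        field_simp)
      have h5 : (γ * ((R : ℂ)⁻¹ * w) * (starRingEnd ℂ) δ).re = R⁻¹ * ((γ * w) * (starRingEnd ℂ) δ).re := by
        have h6 : γ * ((R : ℂ)⁻¹ * w) * (starRingEnd ℂ) δ = ((R⁻¹ : ℝ) : ℂ) * (γ * w * (starRingEnd ℂ) δ) := by
          push_cast
          ring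
        rw [h6, Complex.re_ofReal_mul]
      have h6 : (α * ((R : ℂ)⁻¹ * w) * (starRingEnd ℂ) β).re = R⁻¹ * ((α * w) * (starRingEnd ℂ) β).re := by
        have h6 : α * ((R : ℂ)⁻¹ * w) * (starRingEnd ℂ) β = ((R⁻¹ : ℝ) : ℂ) * (α * w * (starRingEnd ℂ) β) := by
          push_cast
          ring
        rw [h6, Complex.re_ofReal_mul]
      rw [h5, h6] at h4
      have h7 : 2 * ((γ * w) * (starRingEnd ℂ) δ).re - 2 * ((α * w) * (starRingEnd ℂ) β).re ≤ R * (a + b - c - d) := by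
        have h8 := mul_le_mul_of_nonneg_left h4 hR0.le
        have h9 : R * (2 * (R⁻¹ * ((γ * w) * (starRingEnd ℂ) δ).re) - 2 * (R⁻¹ * ((α * w) * (starRingEnd ℂ) β).re)) =
            2 * ((γ * w) * (starRingEnd ℂ) δ).re - 2 * ((α * w) * (starRingEnd ℂ) β).re := by
          field_simp
        linarith
      have h8 := mul_le_mul_of_nonneg_left h7 ht0.le
      -- `d ≤ a + t R (c - b)`
      have h9 : d ≤ a + t * R * (c - b) := by
        have g1 : 0 ≤ (1 + t * R) / 2 * (a - b + c - d) := mul_nonneg (by positivity) hXY'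
        have g2 : 0 ≤ (1 - t * R) / 2 * (a + b - c - d) := mul_nonneg (by linarith) hXY
        nlinarith
      have h10 : (1 - t * R) * d ≤ (1 - t * R) * (a + t * R * (c - b)) := mul_le_mul_of_nonneg_left h9 (by linarith)
      have h11 : 0 ≤ (R ^ 2 - 1) * (a - t ^ 2 * b) := by
        refine mul_nonneg (by nlinarith) ?_
        have : t ^ 2 * b ≤ 1 * b := mul_le_mul_of_nonneg_right (by nlinarith) hb0
        linarith
      rw [e1, e2]
      nlinarith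
  have hclaim : ‖t * γ * w + δ‖ ≤ ‖α * w + t * β‖ := le_of_sq_le_sq hclaim2 (norm_nonneg _)
  have hαpos : 0 < ‖α‖ := norm_pos_iff.2 hα
  have hne : 0 < ‖α * w + t * β‖ := by
    have h4 : ‖α * w‖ - ‖(t : ℂ) * β‖ ≤ ‖α * w + t * β‖ := by
      have := norm_sub_norm_le (α * w) (-((t : ℂ) * β))
      rw [norm_neg, sub_neg_eq_add] at this
      exact this
    rw [norm_mul, norm_mul, Complex.norm_real, Real.norm_eq_abs, abs_of_pos ht0, ← hR] at h4
    have h5 : t * ‖β‖ ≤ 1 * ‖α‖ := mul_le_mul ht1 hβα (norm_nonneg _) zero_le_one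
    nlinarith
  intro h0
  have h4 : (α * w + t * β) * z = -(t * γ * w + δ) := by
    have h5 : α * z * w + t * β * z + t * γ * w + δ = (α * w + t * β) * z + (t * γ * w + δ) := by ring
    rw [h5] at h0
    exact eq_neg_of_add_eq_zero_left h0
  have h5 : ‖α * w + t * β‖ * ‖z‖ = ‖t * γ * w + δ‖ := by
    rw [← norm_mul, h4, norm_neg]
  nlinarith

end CO
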