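import Pool.Agent.helper15.LC.Spec

/-!
# MP_7c3fb3_pr, row lc:LYB: the Lee-Yang theorem
-/

set_option autoImplicit false

open Finset Filter Topology

namespace CO

open CU

section
variable {V : Type} [Fintype V] [DecidableEq V]

theorem LYB_base : NVx (fun _ : V → Bool => (1 : ℝ)) := by
  intro A g hg
  have hpl : pl A = Fintype.piFinset (fun x => if x ∈ A then ({true} : Finset Bool) else univ) := by
    ext σ
    unfold pl
    rw [Finset.mem_filter, Fintype.mem_piFinset]
    constructor
    · rintro ⟨-, h⟩ x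
      split_ifs with hx
      · rw [Finset.mem_singleton]
        exact h x hx
      · exact Finset.mem_univ _
    · intro h
      refine ⟨Finset.mem_univ _, fun x hx => ?_⟩
      have h1 := h x
      rw [if_pos hx, Finset.mem_singleton] at h1
      exact h1
  have h1 : NCx (fun _ : V → Bool => (1 : ℝ)) A g =
      ∏ x, ∑ j ∈ (if x ∈ A then ({true} : Finset Bool) else univ), Complex.exp (g x * (sg j : ℂ)) := by
    rw [Finset.prod_univ_sum, ← hpl]
    unfold NCx
    refine Finset.sum_congr rfl fun σ _ => ?_
    rw [Complex.exp_sum, Complex.ofReal_one, one_mul]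
  rw [h1, Finset.prod_ne_zero_iff]
  intro x _
  have s1 : sg true = 1 := rfl
  have s0 : sg false = -1 := rfl
  by_cases hx : x ∈ A
  · rw [if_pos hx, Finset.sum_singleton]
    exact Complex.exp_ne_zero _
  · rw [if_neg hx, Fintype.sum_bool, s1, s0]
    intro h0
    have h2 : Complex.exp (g x * ((1 : ℝ) : ℂ)) = -Complex.exp (g x * ((-1 : ℝ) : ℂ)) := eq_neg_of_add_eq_zero_left h0
    have h3 := congrArg (fun z : ℂ => ‖z‖) h2
    beta_reduce at h3
    rw [norm_neg, Complex.norm_exp, Complex.norm_exp, Complex.re_mul_ofReal, Complex.re_mul_ofReal] at h3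
    have h4 := Real.exp_injective h3
    have h5 := hg x
    linarith

end

theorem LYB (hLYS : LYS_stmt) : LYB_stmt := by
  intro V _ _ K hK
  have key : ∀ T : Finset (V × V), NVx (fun σ : V → Bool =>
      Real.exp (∑ p ∈ T, K p.1 p.2 * (sg (σ p.1) * sg (σ p.2)))) := by
    intro T
    induction T using Finset.induction_on with
    | empty =>
      have h1 : (fun σ : V → Bool => Real.exp (∑ p ∈ (∅ : Finset (V × V)), K p.1 p.2 * (sg (σ p.1) * sg (σ p.2)))) =
          fun _ => 1 := by
        funext σ
        rw [Finset.sum_empty, Real.exp_zero]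
      rw [h1]
      exact LYB_base
    | insert p T hp ih =>
      have h1 : (fun σ : V → Bool => Real.exp (∑ q ∈ insert p T, K q.1 q.2 * (sg (σ q.1) * sg (σ q.2)))) =
          fun σ => Real.exp (∑ q ∈ T, K q.1 q.2 * (sg (σ q.1) * sg (σ q.2))) *
            Real.exp (K p.1 p.2 * (sg (σ p.1) * sg (σ p.2))) := by
        funext σ
        rw [Finset.sum_insert hp, add_comm, Real.exp_add]
      rw [h1]
      exact hLYS V _ ih p.1 p.2 (K p.1 p.2) (hK _ _)
  have h1 : (fun σ : V → Bool => Real.exp (CWM.HH K (fun _ => 0) σ)) = fun σ =>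
      Real.exp (∑ p ∈ (univ : Finset V) ×ˢ (univ : Finset V), K p.1 p.2 * (sg (σ p.1) * sg (σ p.2))) := by
    funext σ
    unfold CWM.HH
    rw [Finset.sum_product]
    simp
  rw [h1]
  exact key _

end CO
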