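import Pool.Agent.helper15.LC.Spec

/-!
# MP_7c3fb3_pr, row lc:LYC: the magnetisation in the right half plane
-/

set_option autoImplicit false

open Finset Filter Topology

namespace CO

open CU

section
variable {V : Type} [Fintype V] [DecidableEq V]

/-- partial sum: spin `s` at `a`, without the field at `a` -/
noncomputable def LYC_P (c : (V → Bool) → ℝ) (A : Finset V) (g : V → ℂ) (a : V) (s : Bool) : ℂ :=
  ∑ σ ∈ pl A, if σ a = s then (c σ : ℂ) * Complex.exp (∑ x ∈ univ.erase a, g x * (sg (σ x) : ℂ)) else 0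

theorem LYC_split (c : (V → Bool) → ℝ) (A : Finset V) (g : V → ℂ) (a : V) (W : Bool → ℂ) (u : ℂ) :
    ∑ σ ∈ pl A, (c σ : ℂ) * Complex.exp (∑ x, (Function.update g a u) x * (sg (σ x) : ℂ)) * W (σ a) =
      ∑ s : Bool, Complex.exp (u * sg s) * W s * LYC_P c A g a s := by
  simp only [Fintype.sum_bool]
  unfold LYC_P
  rw [Finset.mul_sum, Finset.mul_sum, ← Finset.sum_add_distrib]
  refine Finset.sum_congr rfl fun σ _ => ?_
  have h1 : ∑ x, (Function.update g a u) x * (sg (σ x) : ℂ) =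
      u * sg (σ a) + ∑ x ∈ univ.erase a, g x * (sg (σ x) : ℂ) := by
    rw [← Finset.add_sum_erase _ _ (Finset.mem_univ a), Function.update_self]
    congr 1
    refine Finset.sum_congr rfl fun x hx => ?_
    rw [Function.update_of_ne (Finset.mem_erase.1 hx).1]
  rw [h1, Complex.exp_add]
  rcases Bool.eq_false_or_eq_true (σ a) with ha | ha <;> rw [ha] <;> simp <;> ring

theorem LYC_ins (A : Finset V) (a : V) (F : (V → Bool) → ℂ) :
    ∑ σ ∈ pl (insert a A), F σ = ∑ σ ∈ pl A, F σ * (if σ a = true then 1 else 0) := by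
  have h1 : pl (insert a A) = (pl A).filter (fun σ => σ a = true) := by
    ext σ
    unfold pl
    rw [Finset.mem_filter, Finset.mem_filter, Finset.mem_filter]
    constructor
    · intro h
      exact ⟨⟨Finset.mem_univ _, fun x hx => h.2 x (Finset.mem_insert_of_mem hx)⟩, h.2 a (Finset.mem_insert_self _ _)⟩
    · intro h
      refine ⟨Finset.mem_univ _, fun x hx => ?_⟩
      rcases Finset.mem_insert.1 hx with h2 | h2
      · rw [h2]
        exact h.2
      · exact h.1.2 x h2
  rw [h1, Finset.sum_filter]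
  refine Finset.sum_congr rfl fun σ _ => ?_
  split_ifs
  · rw [mul_one]
  · rw [mul_zero]

end

theorem LYC_log (z : ℂ) (hz : 1 < ‖z‖) : 0 < (Complex.log z / 2).re ∧ Complex.exp (2 * (Complex.log z / 2)) = z := by
  have hz0 : z ≠ 0 := by
    intro h
    rw [h, norm_zero] at hz
    linarith
  constructor
  · have h1 : (Complex.log z / 2).re = Real.log ‖z‖ / 2 := by
      rw [← Complex.log_re]
      simp
    rw [h1]
    have := Real.log_pos hz
    linarith
  · have h1 : 2 * (Complex.log z / 2) = Complex.log z := by ring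
    rw [h1, Complex.exp_log hz0]

theorem LYC_lin (a b : ℂ) (ha : a ≠ 0) (h : ∀ z : ℂ, 1 < ‖z‖ → a * z + b ≠ 0) : ‖b‖ ≤ ‖a‖ := by
  by_contra hlt
  rw [not_le] at hlt
  have ha0 : 0 < ‖a‖ := norm_pos_iff.2 ha
  refine h (-b / a) ?_ ?_
  · rw [norm_div, norm_neg, one_lt_div ha0]
    exact hlt
  · field_simp
    ring

theorem LYC_re (a b : ℂ) (h : ‖b‖ < ‖a‖) : 0 < ((a - b) / (a + b)).re := by
  have hab : a + b ≠ 0 := by
    intro h0
    have h1 : a = -b := eq_neg_of_add_eq_zero_left h0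
    rw [h1, norm_neg] at h
    exact lt_irrefl _ h
  have h1 : 0 < Complex.normSq (a + b) := Complex.normSq_pos.2 hab
  have h2 : Complex.normSq b < Complex.normSq a := by
    rw [Complex.normSq_eq_norm_sq, Complex.normSq_eq_norm_sq]
    exact pow_lt_pow_left₀ h (norm_nonneg _) two_ne_zero
  rw [Complex.div_re, ← add_div]
  refine div_pos ?_ h1
  rw [Complex.normSq_apply, Complex.normSq_apply] at h2
  simp only [Complex.sub_re, Complex.sub_im, Complex.add_re, Complex.add_im]
  nlinarith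

theorem LYC (hLYB : LYB_stmt) : LYC_stmt := by
  intro V _ _ K x₀ hK
  obtain ⟨c, hc⟩ : ∃ c : (V → Bool) → ℝ, c = fun σ => Real.exp (CWM.HH K (fun _ => 0) σ) := ⟨_, rfl⟩
  have hNV : NVx c := by
    rw [hc]
    exact hLYB V K hK
  let N : ℂ → ℂ := fun z => ∑ σ ∈ pl (∅ : Finset V), (c σ : ℂ) * Complex.exp (∑ x, z * (sg (σ x) : ℂ))
  let N₁ : ℂ → ℂ := fun z => ∑ σ ∈ pl (∅ : Finset V), (c σ : ℂ) * Complex.exp (∑ x, z * (sg (σ x) : ℂ)) * (sg (σ x₀) : ℂ)
  have hN0 : ∀ z : ℂ, 0 < z.re → N z ≠ 0 := fun z hz => hNV ∅ (fun _ => z) (fun _ => hz)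
  have s1 : sg true = 1 := rfl
  have s0 : sg false = -1 := rfl
  refine ⟨fun z => N₁ z / N z, ?_, ?_, ?_⟩
  · have hd1 : Differentiable ℂ N₁ := by
      show Differentiable ℂ (fun z => ∑ σ ∈ pl (∅ : Finset V),
        (c σ : ℂ) * Complex.exp (∑ x, z * (sg (σ x) : ℂ)) * (sg (σ x₀) : ℂ))
      fun_prop
    have hd : Differentiable ℂ N := by
      show Differentiable ℂ (fun z => ∑ σ ∈ pl (∅ : Finset V),
        (c σ : ℂ) * Complex.exp (∑ x, z * (sg (σ x) : ℂ)))
      fun_prop
    exact hd1.differentiableOn.div hd.differentiableOn fun z hz => hN0 z hz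
  · intro z hz
    obtain ⟨P, hP⟩ : ∃ P, P = LYC_P c ∅ (fun _ => z) x₀ true := ⟨_, rfl⟩
    obtain ⟨Q, hQ⟩ : ∃ Q, Q = LYC_P c ∅ (fun _ => z) x₀ false := ⟨_, rfl⟩
    have hre : ∀ u : ℂ, 0 < u.re → ∀ x, 0 < (Function.update (fun _ : V => z) x₀ u x).re := by
      intro u hu x
      by_cases hx : x = x₀
      · rw [hx, Function.update_self]
        exact hu
      · rw [Function.update_of_ne hx]
        exact hz
    have q0 : ∀ u : ℂ, NCx c ∅ (Function.update (fun _ : V => z) x₀ u) = Complex.exp (-u) * (P * Complex.exp (2 * u) + Q) := by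
      intro u
      have h1 := LYC_split c ∅ (fun _ => z) x₀ (fun _ => 1) u
      simp only [mul_one, Fintype.sum_bool, ← hP, ← hQ, s1, s0] at h1
      unfold NCx
      rw [h1]
      have e1 : Complex.exp (u * ((1 : ℝ) : ℂ)) = Complex.exp (-u) * Complex.exp (2 * u) := by
        rw [← Complex.exp_add]
        congr 1
        push_cast
        ring
      have e2 : Complex.exp (u * ((-1 : ℝ) : ℂ)) = Complex.exp (-u) := by
        congr 1
        push_cast
        ring
      rw [e1, e2]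
      ring
    have hupd : Function.update (fun _ : V => z) x₀ z = fun _ => z := Function.update_eq_self x₀ (fun _ : V => z)
    have qa : NCx c (insert x₀ ∅) (fun _ : V => z) = Complex.exp z * P := by
      have h1 := LYC_split c ∅ (fun _ => z) x₀ (fun s => if s = true then 1 else 0) z
      simp only [Fintype.sum_bool, ← hP, ← hQ, s1, s0, hupd] at h1
      unfold NCx
      rw [LYC_ins, h1]
      simp
    have q1 : N₁ z = Complex.exp z * P - Complex.exp (-z) * Q := by
      have h1 := LYC_split c ∅ (fun _ => z) x₀ (fun s => (sg s : ℂ)) z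
      simp only [Fintype.sum_bool, ← hP, ← hQ, s1, s0, hupd] at h1
      show ∑ σ ∈ pl (∅ : Finset V), (c σ : ℂ) * Complex.exp (∑ x, z * (sg (σ x) : ℂ)) * (sg (σ x₀) : ℂ) = _
      rw [h1]
      push_cast
      ring_nf
    have q2 : N z = Complex.exp z * P + Complex.exp (-z) * Q := by
      have h1 := q0 z
      rw [hupd] at h1
      have h2 : N z = NCx c ∅ (fun _ => z) := rfl
      rw [h2, h1]
      have e1 : Complex.exp z = Complex.exp (-z) * Complex.exp (2 * z) := by
        rw [← Complex.exp_add]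
        congr 1
        ring
      rw [e1]
      ring
    have hP0 : P ≠ 0 := by
      have h1 := hNV (insert x₀ ∅) (fun _ => z) (fun _ => hz)
      rw [qa] at h1
      exact right_ne_zero_of_mul h1
    have hQP : ‖Q‖ ≤ ‖P‖ := by
      refine LYC_lin P Q hP0 ?_
      intro w hw
      obtain ⟨h1, h2⟩ := LYC_log w hw
      have h3 := hNV ∅ _ (hre _ h1)
      rw [q0, h2] at h3
      exact right_ne_zero_of_mul h3
    show 0 < (N₁ z / N z).re
    rw [q1, q2]
    refine LYC_re _ _ ?_
    rw [norm_mul, norm_mul, Complex.norm_exp, Complex.norm_exp, Complex.neg_re]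
    have hPpos : 0 < ‖P‖ := norm_pos_iff.2 hP0
    have h1 : Real.exp (-z.re) < Real.exp z.re := Real.exp_lt_exp.2 (by linarith)
    calc Real.exp (-z.re) * ‖Q‖ ≤ Real.exp (-z.re) * ‖P‖ := mul_le_mul_of_nonneg_left hQP (Real.exp_pos _).le
      _ < Real.exp z.re * ‖P‖ := mul_lt_mul_of_pos_right h1 hPpos
  · intro h _
    have hpl : pl (∅ : Finset V) = univ := by
      unfold pl
      simp
    have hcc : ∀ σ : V → Bool, (c σ : ℂ) * Complex.exp (∑ x, (h : ℂ) * (sg (σ x) : ℂ)) =
        ((Real.exp (CWM.HH K (fun _ => h) σ) : ℝ) : ℂ) := by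
      intro σ
      have e1 : CWM.HH K (fun _ => h) σ = CWM.HH K (fun _ => 0) σ + ∑ x, h * sg (σ x) := by
        unfold CWM.HH
        simp
      rw [e1, Real.exp_add, hc]
      push_cast
      rfl
    have e1 : N (h : ℂ) = ((∑ σ : V → Bool, Real.exp (CWM.HH K (fun _ => h) σ) : ℝ) : ℂ) := by
      show ∑ σ ∈ pl (∅ : Finset V), (c σ : ℂ) * Complex.exp (∑ x, (h : ℂ) * (sg (σ x) : ℂ)) = _
      rw [hpl, Complex.ofReal_sum]
      exact Finset.sum_congr rfl fun σ _ => hcc σ
    have e2 : N₁ (h : ℂ) = ((∑ σ : V → Bool, Real.exp (CWM.HH K (fun _ => h) σ) * sg (σ x₀) : ℝ) : ℂ) := by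
      show ∑ σ ∈ pl (∅ : Finset V), (c σ : ℂ) * Complex.exp (∑ x, (h : ℂ) * (sg (σ x) : ℂ)) * (sg (σ x₀) : ℂ) = _
      rw [hpl, Complex.ofReal_sum]
      refine Finset.sum_congr rfl fun σ _ => ?_
      rw [hcc σ, Complex.ofReal_mul]
    show N₁ (h : ℂ) / N (h : ℂ) = _
    rw [e1, e2]
    unfold ex
    rw [Complex.ofReal_div]

end CO
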