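import Pool.Agent.helper15.LC.Spec

/-!
# MP_7c3fb3_pr, row lc:LYS: one more ferromagnetic coupling
-/

set_option autoImplicit false

open Finset Filter Topology

namespace CO

open CU

section
variable {V : Type} [Fintype V] [DecidableEq V]

/-- partial sum: spins `s, s'` at `a, b`, without the fields at `a, b` -/
noncomputable def LYS_P (c : (V → Bool) → ℝ) (A : Finset V) (g : V → ℂ) (a b : V) (s s' : Bool) : ℂ :=
  ∑ σ ∈ pl A, if σ a = s ∧ σ b = s' then
    (c σ : ℂ) * Complex.exp (∑ x ∈ (univ.erase a).erase b, g x * (sg (σ x) : ℂ)) else 0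

theorem LYS_split (c : (V → Bool) → ℝ) (A : Finset V) (g : V → ℂ) (a b : V) (hab : a ≠ b) (W : Bool → Bool → ℂ) (u v : ℂ) :
    ∑ σ ∈ pl A, (c σ : ℂ) * Complex.exp (∑ x, (Function.update (Function.update g a u) b v) x * (sg (σ x) : ℂ)) *
      W (σ a) (σ b) = ∑ s : Bool, ∑ s' : Bool, Complex.exp (u * sg s + v * sg s') * W s s' * LYS_P c A g a b s s' := by
  simp only [Fintype.sum_bool]
  unfold LYS_P
  rw [Finset.mul_sum, Finset.mul_sum, Finset.mul_sum, Finset.mul_sum, ← Finset.sum_add_distrib, ← Finset.sum_add_distrib,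
    ← Finset.sum_add_distrib]
  refine Finset.sum_congr rfl fun σ _ => ?_
  have hb : b ∈ (univ : Finset V).erase a := Finset.mem_erase.2 ⟨hab.symm, Finset.mem_univ _⟩
  have h1 : ∑ x, (Function.update (Function.update g a u) b v) x * (sg (σ x) : ℂ) =
      (u * sg (σ a) + v * sg (σ b)) + ∑ x ∈ (univ.erase a).erase b, g x * (sg (σ x) : ℂ) := by
    rw [← Finset.add_sum_erase _ _ (Finset.mem_univ a), ← Finset.add_sum_erase _ _ hb, Function.update_self,
      Function.update_of_ne hab, Function.update_self, add_assoc]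
    congr 2
    refine Finset.sum_congr rfl fun x hx => ?_
    rw [Finset.mem_erase, Finset.mem_erase] at hx
    rw [Function.update_of_ne hx.1, Function.update_of_ne hx.2.1]
  rw [h1, Complex.exp_add]
  rcases Bool.eq_false_or_eq_true (σ a) with ha | ha <;> rcases Bool.eq_false_or_eq_true (σ b) with hb' | hb' <;>
    rw [ha, hb'] <;> simp <;> ring

theorem LYS_ins (A : Finset V) (a : V) (F : (V → Bool) → ℂ) :
    ∑ σ ∈ pl (insert a A), F σ = ∑ σ ∈ pl A, F σ * (if σ a = true then 1 else 0) := by
  have h1 : pl (insert a A) = (pl A).filter (fun σ => σ a = true) := by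
    ext σ
    unfold pl
    rw [Finset.mem_filter, Finset.mem_filter, Finset.mem_filter]
    constructor
    · intro h
      exact ⟨⟨Finset.mem_univ _, fun x hx => h.2 x (Finset.mem_insert_of_mem hx)⟩, h.2 a (Finset.mem_insert_self _ _)⟩
    · intro h
      refine ⟨Finset.mem_univ _, fun x hx => ?_⟩
      rcases Finset.mem_insert.1 hx with h2 | h2
      · rw [h2]
        exact h.2
      · exact h.1.2 x h2
  rw [h1, Finset.sum_filter]
  refine Finset.sum_congr rfl fun σ _ => ?_
  split_ifs
  · rw [mul_one]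
  · rw [mul_zero]

theorem LYS_add (g : V → ℂ) (b : V) (k : ℂ) (s : V → ℂ) :
    ∑ x, (g x + if x = b then k else 0) * s x = ∑ x, g x * s x + k * s b := by
  have h1 : ∀ x, (g x + if x = b then k else 0) * s x = g x * s x + if x = b then k * s x else 0 := by
    intro x
    split_ifs
    · ring
    · ring
  rw [Finset.sum_congr rfl fun x _ => h1 x, Finset.sum_add_distrib, Finset.sum_ite_eq' univ b (fun x => k * s x),
    if_pos (Finset.mem_univ b)]

/-- the coupling of a spin which is fixed to plus -/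
theorem LYS_fix (c : (V → Bool) → ℝ) (hc : NVx c) (a b : V) (k : ℝ) (hk : 0 ≤ k) (A : Finset V) (ha : a ∈ A) (g : V → ℂ)
    (hg : ∀ x, 0 < (g x).re) : NCx (fun σ => c σ * Real.exp (k * (sg (σ a) * sg (σ b)))) A g ≠ 0 := by
  have h1 : NCx (fun σ => c σ * Real.exp (k * (sg (σ a) * sg (σ b)))) A g =
      NCx c A (fun x => g x + if x = b then (k : ℂ) else 0) := by
    unfold NCx
    refine Finset.sum_congr rfl fun σ hσ => ?_
    have h2 : σ a = true := (Finset.mem_filter.1 hσ).2 a ha
    beta_reduce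
    rw [LYS_add, Complex.exp_add, h2]
    have h3 : sg true = 1 := rfl
    rw [h3, one_mul]
    push_cast
    ring
  rw [h1]
  refine hc A _ fun x => ?_
  rw [Complex.add_re]
  split_ifs
  · rw [Complex.ofReal_re]
    have := hg x
    linarith
  · rw [Complex.zero_re, add_zero]
    exact hg x

end

theorem LYS_log (z : ℂ) (hz : 1 < ‖z‖) : 0 < (Complex.log z / 2).re ∧ Complex.exp (2 * (Complex.log z / 2)) = z := by
  have hz0 : z ≠ 0 := by
    intro h
    rw [h, norm_zero] at hz
    linarith
  constructor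
  · have h1 : (Complex.log z / 2).re = Real.log ‖z‖ / 2 := by
      rw [← Complex.log_re]
      simp
    rw [h1]
    have := Real.log_pos hz
    linarith
  · have h1 : 2 * (Complex.log z / 2) = Complex.log z := by ring
    rw [h1, Complex.exp_log hz0]

theorem LYS (hLYA : LYA_stmt) : LYS_stmt := by
  intro V _ _ c hc a b k hk A g hg
  by_cases haA : a ∈ A
  · exact LYS_fix c hc a b k hk A haA g hg
  by_cases hbA : b ∈ A
  · have h1 : (fun σ : V → Bool => c σ * Real.exp (k * (sg (σ a) * sg (σ b)))) =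
        fun σ => c σ * Real.exp (k * (sg (σ b) * sg (σ a))) := by
      funext σ
      rw [mul_comm (sg (σ a))]
    rw [h1]
    exact LYS_fix c hc b a k hk A hbA g hg
  by_cases hab : a = b
  · subst hab
    have h1 : NCx (fun σ => c σ * Real.exp (k * (sg (σ a) * sg (σ a)))) A g = (Real.exp k : ℂ) * NCx c A g := by
      unfold NCx
      rw [Finset.mul_sum]
      refine Finset.sum_congr rfl fun σ _ => ?_
      have h2 : sg (σ a) * sg (σ a) = 1 := by
        unfold sg
        split_ifs <;> norm_num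
      beta_reduce
      rw [h2, mul_one]
      push_cast
      ring
    rw [h1]
    refine mul_ne_zero ?_ (hc A g hg)
    exact_mod_cast (Real.exp_pos k).ne'
  -- the main case
  have hG : Function.update (Function.update g a (g a)) b (g b) = g := by
    rw [Function.update_eq_self, Function.update_eq_self]
  have hGre : ∀ u v : ℂ, 0 < u.re → 0 < v.re → ∀ x, 0 < (Function.update (Function.update g a u) b v x).re := by
    intro u v hu hv x
    by_cases hxb : x = b
    · rw [hxb, Function.update_self]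
      exact hv
    · rw [Function.update_of_ne hxb]
      by_cases hxa : x = a
      · rw [hxa, Function.update_self]
        exact hu
      · rw [Function.update_of_ne hxa]
        exact hg x
  obtain ⟨α, hα⟩ : ∃ α, α = LYS_P c A g a b true true := ⟨_, rfl⟩
  obtain ⟨β, hβ⟩ : ∃ β, β = LYS_P c A g a b true false := ⟨_, rfl⟩
  obtain ⟨γ, hγ⟩ : ∃ γ, γ = LYS_P c A g a b false true := ⟨_, rfl⟩
  obtain ⟨δ, hδ⟩ : ∃ δ, δ = LYS_P c A g a b false false := ⟨_, rfl⟩
  have s1 : sg true = 1 := rfl
  have s0 : sg false = -1 := rfl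
  -- the four sums
  have q0 : ∀ u v : ℂ, NCx c A (Function.update (Function.update g a u) b v) =
      Complex.exp (-u - v) * (α * Complex.exp (2 * u) * Complex.exp (2 * v) + β * Complex.exp (2 * u) +
        γ * Complex.exp (2 * v) + δ) := by
    intro u v
    have h1 := LYS_split c A g a b hab (fun _ _ => 1) u v
    simp only [mul_one, Fintype.sum_bool, ← hα, ← hβ, ← hγ, ← hδ, s1, s0] at h1
    unfold NCx
    rw [h1]
    have e1 : Complex.exp (u * ((1 : ℝ) : ℂ) + v * ((1 : ℝ) : ℂ)) = Complex.exp (-u - v) * (Complex.exp (2 * u) * Complex.exp (2 * v)) := by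
      rw [← Complex.exp_add, ← Complex.exp_add]
      congr 1
      push_cast
      ring
    have e2 : Complex.exp (u * ((1 : ℝ) : ℂ) + v * ((-1 : ℝ) : ℂ)) = Complex.exp (-u - v) * Complex.exp (2 * u) := by
      rw [← Complex.exp_add]
      congr 1
      push_cast
      ring
    have e3 : Complex.exp (u * ((-1 : ℝ) : ℂ) + v * ((1 : ℝ) : ℂ)) = Complex.exp (-u - v) * Complex.exp (2 * v) := by
      rw [← Complex.exp_add]
      congr 1
      push_cast
      ring
    have e4 : Complex.exp (u * ((-1 : ℝ) : ℂ) + v * ((-1 : ℝ) : ℂ)) = Complex.exp (-u - v) := by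
      congr 1
      push_cast
      ring
    rw [e1, e2, e3, e4]
    ring
  have qa : ∀ u v : ℂ, NCx c (insert a A) (Function.update (Function.update g a u) b v) =
      Complex.exp (u - v) * (α * Complex.exp (2 * v) + β) := by
    intro u v
    have h1 := LYS_split c A g a b hab (fun s _ => if s = true then 1 else 0) u v
    simp only [Fintype.sum_bool, ← hα, ← hβ, ← hγ, ← hδ, s1, s0] at h1
    unfold NCx
    rw [LYS_ins, h1]
    have e1 : Complex.exp (u * ((1 : ℝ) : ℂ) + v * ((1 : ℝ) : ℂ)) = Complex.exp (u - v) * Complex.exp (2 * v) := by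
      rw [← Complex.exp_add]
      congr 1
      push_cast
      ring
    have e2 : Complex.exp (u * ((1 : ℝ) : ℂ) + v * ((-1 : ℝ) : ℂ)) = Complex.exp (u - v) := by
      congr 1
      push_cast
      ring
    rw [e1, e2]
    simp
    ring
  have qb : ∀ u v : ℂ, NCx c (insert b A) (Function.update (Function.update g a u) b v) =
      Complex.exp (v - u) * (α * Complex.exp (2 * u) + γ) := by
    intro u v
    have h1 := LYS_split c A g a b hab (fun _ s' => if s' = true then 1 else 0) u v
    simp only [Fintype.sum_bool, ← hα, ← hβ, ← hγ, ← hδ, s1, s0] at h1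
    unfold NCx
    rw [LYS_ins, h1]
    have e1 : Complex.exp (u * ((1 : ℝ) : ℂ) + v * ((1 : ℝ) : ℂ)) = Complex.exp (v - u) * Complex.exp (2 * u) := by
      rw [← Complex.exp_add]
      congr 1
      push_cast
      ring
    have e2 : Complex.exp (u * ((-1 : ℝ) : ℂ) + v * ((1 : ℝ) : ℂ)) = Complex.exp (v - u) := by
      congr 1
      push_cast
      ring
    rw [e1, e2]
    simp
    ring
  have qab : NCx c (insert a (insert b A)) g = Complex.exp (g a + g b) * α := by
    have h1 := LYS_split c A g a b hab (fun s s' => (if s = true then 1 else 0) * (if s' = true then 1 else 0)) (g a) (g b)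
    simp only [Fintype.sum_bool, ← hα, ← hβ, ← hγ, ← hδ, s1, s0, hG] at h1
    unfold NCx
    rw [LYS_ins, LYS_ins]
    have h2 : ∑ σ ∈ pl A, (c σ : ℂ) * Complex.exp (∑ x, g x * (sg (σ x) : ℂ)) * (if σ a = true then 1 else 0) *
        (if σ b = true then 1 else 0) = ∑ σ ∈ pl A, (c σ : ℂ) * Complex.exp (∑ x, g x * (sg (σ x) : ℂ)) *
        ((if σ a = true then 1 else 0) * (if σ b = true then 1 else 0)) :=
      Finset.sum_congr rfl fun σ _ => by rw [mul_assoc]
    rw [h2, h1]
    simp
  have qn : NCx (fun σ => c σ * Real.exp (k * (sg (σ a) * sg (σ b)))) A g =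
      Complex.exp (k - g a - g b) * (α * Complex.exp (2 * g a) * Complex.exp (2 * g b) +
        (Real.exp (-2 * k) : ℝ) * β * Complex.exp (2 * g a) + (Real.exp (-2 * k) : ℝ) * γ * Complex.exp (2 * g b) + δ) := by
    have h1 := LYS_split c A g a b hab (fun s s' => Complex.exp (k * ((sg s : ℂ) * sg s'))) (g a) (g b)
    simp only [Fintype.sum_bool, ← hα, ← hβ, ← hγ, ← hδ, s1, s0, hG] at h1
    unfold NCx
    have h2 : ∀ σ ∈ pl A, ((c σ * Real.exp (k * (sg (σ a) * sg (σ b))) : ℝ) : ℂ) * Complex.exp (∑ x, g x * (sg (σ x) : ℂ)) =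
        (c σ : ℂ) * Complex.exp (∑ x, g x * (sg (σ x) : ℂ)) * Complex.exp (k * ((sg (σ a) : ℂ) * sg (σ b))) := by
      intro σ _
      push_cast
      ring
    rw [Finset.sum_congr rfl h2, h1]
    have e1 : Complex.exp (g a * ((1 : ℝ) : ℂ) + g b * ((1 : ℝ) : ℂ)) * Complex.exp (k * (((1 : ℝ) : ℂ) * ((1 : ℝ) : ℂ))) =
        Complex.exp (k - g a - g b) * (Complex.exp (2 * g a) * Complex.exp (2 * g b)) := by
      rw [← Complex.exp_add, ← Complex.exp_add, ← Complex.exp_add]
      congr 1
      push_cast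
      ring
    have e2 : Complex.exp (g a * ((1 : ℝ) : ℂ) + g b * ((-1 : ℝ) : ℂ)) * Complex.exp (k * (((1 : ℝ) : ℂ) * ((-1 : ℝ) : ℂ))) =
        Complex.exp (k - g a - g b) * (((Real.exp (-2 * k) : ℝ) : ℂ) * Complex.exp (2 * g a)) := by
      rw [Complex.ofReal_exp, ← Complex.exp_add, ← Complex.exp_add, ← Complex.exp_add]
      congr 1
      push_cast
      ring
    have e3 : Complex.exp (g a * ((-1 : ℝ) : ℂ) + g b * ((1 : ℝ) : ℂ)) * Complex.exp (k * (((-1 : ℝ) : ℂ) * ((1 : ℝ) : ℂ))) =
        Complex.exp (k - g a - g b) * (((Real.exp (-2 * k) : ℝ) : ℂ) * Complex.exp (2 * g b)) := by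
      rw [Complex.ofReal_exp, ← Complex.exp_add, ← Complex.exp_add, ← Complex.exp_add]
      congr 1
      push_cast
      ring
    have e4 : Complex.exp (g a * ((-1 : ℝ) : ℂ) + g b * ((-1 : ℝ) : ℂ)) * Complex.exp (k * (((-1 : ℝ) : ℂ) * ((-1 : ℝ) : ℂ))) =
        Complex.exp (k - g a - g b) := by
      rw [← Complex.exp_add]
      congr 1
      push_cast
      ring
    rw [e1, e2, e3, e4]
    ring
  rw [qn]
  refine mul_ne_zero (Complex.exp_ne_zero _) ?_
  refine hLYA α β γ δ (Real.exp (-2 * k)) (Real.exp_pos _) ?_ ?_ ?_ ?_ ?_ _ _ ?_ ?_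
  · rw [Real.exp_le_one_iff]
    linarith
  · have h1 := hc (insert a (insert b A)) g hg
    rw [qab] at h1
    exact right_ne_zero_of_mul h1
  · intro w hw
    obtain ⟨h1, h2⟩ := LYS_log w hw
    have h3 := hc (insert a A) _ (hGre (g a) (Complex.log w / 2) (hg a) h1)
    rw [qa, h2] at h3
    exact right_ne_zero_of_mul h3
  · intro z hz
    obtain ⟨h1, h2⟩ := LYS_log z hz
    have h3 := hc (insert b A) _ (hGre (Complex.log z / 2) (g b) h1 (hg b))
    rw [qb, h2] at h3
    exact right_ne_zero_of_mul h3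
  · intro z w hz hw
    obtain ⟨h1, h2⟩ := LYS_log z hz
    obtain ⟨h1', h2'⟩ := LYS_log w hw
    have h3 := hc A _ (hGre (Complex.log z / 2) (Complex.log w / 2) h1 h1')
    rw [q0, h2, h2'] at h3
    exact right_ne_zero_of_mul h3
  · rw [Complex.norm_exp]
    rw [Real.one_lt_exp_iff]
    have := hg a
    simp only [Complex.mul_re, Complex.re_ofNat, Complex.im_ofNat, zero_mul, sub_zero]
    linarith
  · rw [Complex.norm_exp]
    rw [Real.one_lt_exp_iff]
    have := hg b
    simp only [Complex.mul_re, Complex.re_ofNat, Complex.im_ofNat, zero_mul, sub_zero]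
    linarith

end CO
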