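import Pool.Agent.helper15.LC.Spec

/-!
# MP_7c3fb3_pr, row lc:PRB: finite probability
-/

set_option autoImplicit false

open Finset Filter Topology

namespace CO

open CU

open scoped Classical in
theorem PRB : PRB_stmt := by
  intro m m₁ ε hm₁ hmm hm1 hε
  obtain ⟨e, he⟩ : ∃ e, e = min ε 1 := ⟨_, rfl⟩
  have he0 : 0 < e := by rw [he]; exact lt_min hε one_pos
  have heε : e ≤ ε := by rw [he]; exact min_le_left _ _
  have he1 : e ≤ 1 := by rw [he]; exact min_le_right _ _
  have hm0 : 0 < m := by linarith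
  obtain ⟨k', hk'⟩ : ∃ k', k' = min (e / 4) (m₁ / 4) := ⟨_, rfl⟩
  have hk'0 : 0 < k' := by rw [hk']; exact lt_min (by linarith) (by linarith)
  have hk'e : k' ≤ e / 4 := by rw [hk']; exact min_le_left _ _
  have hk'm : k' ≤ m₁ / 4 := by rw [hk']; exact min_le_right _ _
  obtain ⟨k₃, hk₃⟩ : ∃ k₃, k₃ = k' * m := ⟨_, rfl⟩
  have hk₃0 : 0 < k₃ := by rw [hk₃]; positivity
  have hk₃1 : k₃ ≤ 1 / 4 := by
    rw [hk₃]
    nlinarith
  obtain ⟨k₁, hk₁⟩ : ∃ k₁, k₁ = e * k₃ / 100 := ⟨_, rfl⟩
  have hk₁0 : 0 < k₁ := by rw [hk₁]; positivity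
  have hk₁e : k₁ ≤ e / 400 := by
    rw [hk₁]
    nlinarith
  have hk₁1 : k₁ ≤ 1 / 400 := by linarith
  obtain ⟨κ, hκ⟩ : ∃ κ, κ = min (k₁ / 2) (m₁ / 4) := ⟨_, rfl⟩
  have hκ0 : 0 < κ := by rw [hκ]; exact lt_min (by linarith) (by linarith)
  have hκ1 : κ ≤ k₁ / 2 := by rw [hκ]; exact min_le_left _ _
  have hκm : κ ≤ m₁ / 4 := by rw [hκ]; exact min_le_right _ _
  obtain ⟨l, hl⟩ : ∃ l, l = Real.log (2 / k₁) := ⟨_, rfl⟩
  have hl0 : 0 < l := by
    rw [hl]
    refine Real.log_pos ?_
    rw [lt_div_iff₀ hk₁0]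
    linarith
  have hexpl : Real.exp (-l) = k₁ / 2 := by
    rw [Real.exp_neg, hl, Real.exp_log (by positivity), inv_div]
  obtain ⟨a, ha⟩ : ∃ a, a = l / m₁ + 2 * l / k₁ := ⟨_, rfl⟩
  have ha0 : 0 < a := by rw [ha]; positivity
  have ham : l ≤ a * m₁ := by
    rw [ha, add_mul, div_mul_cancel₀ _ hm₁.ne']
    have : 0 ≤ 2 * l / k₁ * m₁ := by positivity
    linarith
  have hak : l ≤ a * k₁ / 2 := by
    rw [ha, add_mul, div_mul_cancel₀ _ hk₁0.ne']
    have : 0 ≤ l / m₁ * k₁ := by positivity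
    linarith
  refine ⟨a, κ, ha0, hκ0, ?_⟩
  intro X _ w Y hw hW hY h1 h2 h3
  obtain ⟨W, hWdef⟩ : ∃ W, W = ∑ x, w x := ⟨_, rfl⟩
  rw [← hWdef] at hW h1 h2 ⊢
  let A : X → ℝ := fun x => if Y x ≤ -(m - k') then 1 else 0
  let B : X → ℝ := fun x => if m + k₁ ≤ Y x then 1 else 0
  let D : X → ℝ := fun x => if Y x ^ 2 < m ^ 2 - k₃ then 1 else 0
  have hA0 : ∀ x, 0 ≤ A x := by
    intro x
    show (0 : ℝ) ≤ if Y x ≤ -(m - k') then 1 else 0
    split_ifs
    · exact zero_le_one
    · exact le_rfl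
  have hB0 : ∀ x, 0 ≤ B x := by
    intro x
    show (0 : ℝ) ≤ if m + k₁ ≤ Y x then 1 else 0
    split_ifs
    · exact zero_le_one
    · exact le_rfl
  have hD0 : ∀ x, 0 ≤ D x := by
    intro x
    show (0 : ℝ) ≤ if Y x ^ 2 < m ^ 2 - k₃ then 1 else 0
    split_ifs
    · exact zero_le_one
    · exact le_rfl
  -- event A
  have hSA : ∑ x, w x * A x ≤ k₁ * W := by
    have g1 : (∑ x, w x * A x) * Real.exp (a * (m - k')) ≤ ∑ x, w x * Real.exp (-(a * Y x)) := by
      rw [Finset.sum_mul]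
      refine Finset.sum_le_sum fun x _ => ?_
      rw [mul_assoc]
      refine mul_le_mul_of_nonneg_left ?_ (hw x)
      show (if Y x ≤ -(m - k') then (1 : ℝ) else 0) * Real.exp (a * (m - k')) ≤ _
      split_ifs with hx
      · rw [one_mul]
        refine Real.exp_le_exp.2 ?_
        nlinarith
      · rw [zero_mul]
        exact (Real.exp_pos _).le
    have g2 : (∑ x, w x * A x) * Real.exp (a * (m - k')) ≤
        2 * Real.exp (-a * (2 * m₁ - κ)) * (Real.exp (a * (m + κ)) * W) :=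
      g1.trans (h3.trans (mul_le_mul_of_nonneg_left h2 (by positivity)))
    have g3 : 2 * Real.exp (-a * (2 * m₁ - κ)) * (Real.exp (a * (m + κ)) * W) =
        (2 * Real.exp (-a * (2 * m₁ - 2 * κ - k')) * W) * Real.exp (a * (m - k')) := by
      have e1 : Real.exp (-a * (2 * m₁ - κ)) * Real.exp (a * (m + κ)) =
          Real.exp (-a * (2 * m₁ - 2 * κ - k')) * Real.exp (a * (m - k')) := by
        rw [← Real.exp_add, ← Real.exp_add]
        congr 1
        ring
      calc 2 * Real.exp (-a * (2 * m₁ - κ)) * (Real.exp (a * (m + κ)) * W)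
          = 2 * (Real.exp (-a * (2 * m₁ - κ)) * Real.exp (a * (m + κ))) * W := by ring
        _ = _ := by rw [e1]; ring
    rw [g3] at g2
    have g4 := le_of_mul_le_mul_right g2 (Real.exp_pos _)
    refine g4.trans ?_
    refine mul_le_mul_of_nonneg_right ?_ hW.le
    have g5 : Real.exp (-a * (2 * m₁ - 2 * κ - k')) ≤ Real.exp (-l) := by
      refine Real.exp_le_exp.2 ?_
      have : m₁ ≤ 2 * m₁ - 2 * κ - k' := by linarith
      have := mul_le_mul_of_nonneg_left this ha0.le
      linarith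
    rw [hexpl] at g5
    linarith
  -- event B
  have hSB : ∑ x, w x * B x ≤ k₁ * W := by
    have g1 : (∑ x, w x * B x) * Real.exp (a * (m + k₁)) ≤ ∑ x, w x * Real.exp (a * Y x) := by
      rw [Finset.sum_mul]
      refine Finset.sum_le_sum fun x _ => ?_
      rw [mul_assoc]
      refine mul_le_mul_of_nonneg_left ?_ (hw x)
      show (if m + k₁ ≤ Y x then (1 : ℝ) else 0) * Real.exp (a * (m + k₁)) ≤ _
      split_ifs with hx
      · rw [one_mul]
        exact Real.exp_le_exp.2 (mul_le_mul_of_nonneg_left hx ha0.le)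
      · rw [zero_mul]
        exact (Real.exp_pos _).le
    have g2 := g1.trans h2
    have g3 : Real.exp (a * (m + κ)) * W = (Real.exp (-a * (k₁ - κ)) * W) * Real.exp (a * (m + k₁)) := by
      have e1 : Real.exp (a * (m + κ)) = Real.exp (-a * (k₁ - κ)) * Real.exp (a * (m + k₁)) := by
        rw [← Real.exp_add]
        congr 1
        ring
      rw [e1]
      ring
    rw [g3] at g2
    have g4 := le_of_mul_le_mul_right g2 (Real.exp_pos _)
    refine g4.trans ?_
    refine mul_le_mul_of_nonneg_right ?_ hW.le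
    have g5 : Real.exp (-a * (k₁ - κ)) ≤ Real.exp (-l) := by
      refine Real.exp_le_exp.2 ?_
      have : k₁ / 2 ≤ k₁ - κ := by linarith
      have := mul_le_mul_of_nonneg_left this ha0.le
      linarith
    rw [hexpl] at g5
    linarith
  -- event D
  have hsq : ∑ x, w x * Y x ^ 2 ≤ (m + k₁) ^ 2 * W - k₃ * ∑ x, w x * D x + ∑ x, w x * A x + ∑ x, w x * B x := by
    have g1 : (m + k₁) ^ 2 * W - k₃ * ∑ x, w x * D x + ∑ x, w x * A x + ∑ x, w x * B x =
        ∑ x, w x * ((m + k₁) ^ 2 - k₃ * D x + A x + B x) := by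
      rw [hWdef, Finset.mul_sum, Finset.mul_sum, ← Finset.sum_sub_distrib, ← Finset.sum_add_distrib,
        ← Finset.sum_add_distrib]
      refine Finset.sum_congr rfl fun x _ => ?_
      ring
    rw [g1]
    refine Finset.sum_le_sum fun x _ => ?_
    refine mul_le_mul_of_nonneg_left ?_ (hw x)
    have hYx := abs_le.1 (hY x)
    have hY1 : Y x ^ 2 ≤ 1 := by nlinarith
    have hmk : m ^ 2 ≤ (m + k₁) ^ 2 := by nlinarith
    by_cases hD : Y x ^ 2 < m ^ 2 - k₃
    · have hDx : D x = 1 := if_pos hD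
      rw [hDx]
      have := hA0 x
      have := hB0 x
      linarith
    · have hDx : D x = 0 := if_neg hD
      rw [hDx]
      by_cases hA : Y x ≤ -(m - k')
      · have hAx : A x = 1 := if_pos hA
        rw [hAx]
        have := hB0 x
        have : 0 ≤ (m + k₁) ^ 2 := sq_nonneg _
        linarith
      · by_cases hB : m + k₁ ≤ Y x
        · have hBx : B x = 1 := if_pos hB
          rw [hBx]
          have := hA0 x
          have : 0 ≤ (m + k₁) ^ 2 := sq_nonneg _
          linarith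
        · have hAx : A x = 0 := if_neg hA
          have hBx : B x = 0 := if_neg hB
          rw [hAx, hBx]
          rw [not_le] at hA hB
          have g2 : Y x ^ 2 ≤ (m + k₁) ^ 2 := sq_le_sq' (by linarith) hB.le
          linarith
  have hSD : ∑ x, w x * D x ≤ 55 / 1000 * e * W := by
    have g1 : k₃ * ∑ x, w x * D x ≤ k₃ * (55 / 1000 * e * W) := by
      have g2 : (m + k₁) ^ 2 * W = m ^ 2 * W + (2 * m * k₁ + k₁ ^ 2) * W := by ring
      have g3 : (2 * m * k₁ + k₁ ^ 2) * W ≤ 3 * k₁ * W := by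
        refine mul_le_mul_of_nonneg_right ?_ hW.le
        nlinarith
      have g4 : κ * W ≤ k₁ / 2 * W := mul_le_mul_of_nonneg_right hκ1 hW.le
      have g5 : k₃ * (55 / 1000 * e * W) = 55 / 10 * k₁ * W := by
        rw [hk₁]
        ring
      rw [g5]
      linarith
    exact le_of_mul_le_mul_left g1 hk₃0
  -- the mean
  have hmean : (m - k') * W - 2 * ∑ x, w x * A x - 2 * ∑ x, w x * D x ≤ ∑ x, w x * Y x := by
    have g1 : (m - k') * W - 2 * ∑ x, w x * A x - 2 * ∑ x, w x * D x =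
        ∑ x, w x * ((m - k') - 2 * A x - 2 * D x) := by
      rw [hWdef, Finset.mul_sum, Finset.mul_sum, Finset.mul_sum, ← Finset.sum_sub_distrib, ← Finset.sum_sub_distrib]
      refine Finset.sum_congr rfl fun x _ => ?_
      ring
    rw [g1]
    refine Finset.sum_le_sum fun x _ => ?_
    refine mul_le_mul_of_nonneg_left ?_ (hw x)
    have hYx := abs_le.1 (hY x)
    by_cases hA : Y x ≤ -(m - k')
    · have hAx : A x = 1 := if_pos hA
      rw [hAx]
      have := hD0 x
      linarith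
    · by_cases hD : Y x ^ 2 < m ^ 2 - k₃
      · have hDx : D x = 1 := if_pos hD
        rw [hDx]
        have := hA0 x
        linarith
      · have hAx : A x = 0 := if_neg hA
        have hDx : D x = 0 := if_neg hD
        rw [hAx, hDx]
        rw [not_le] at hA
        rw [not_lt] at hD
        by_contra hlt
        rw [not_le] at hlt
        have g2 : Y x < m - k' := by linarith
        have g3 : Y x ^ 2 < (m - k') ^ 2 := sq_lt_sq' hA g2
        have g4 : (m - k') ^ 2 ≤ m ^ 2 - k₃ := by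
          rw [hk₃]
          nlinarith
        linarith
  have hfin : (m - ε) * W ≤ (m - k') * W - 2 * (k₁ * W) - 2 * (55 / 1000 * e * W) := by
    have g1 : (m - k') * W - 2 * (k₁ * W) - 2 * (55 / 1000 * e * W) =
        (m - k' - 2 * k₁ - 2 * (55 / 1000 * e)) * W := by ring
    rw [g1]
    refine mul_le_mul_of_nonneg_right ?_ hW.le
    linarith
  linarith

end CO
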