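import Pool.Agent.helper15.LC.Spec

/-!
# MP_7c3fb3_pr, row lc:RAW: walk to the origin
-/

set_option autoImplicit false

open Finset Filter Topology

namespace CO

open CU

theorem RAW_step {n : ℕ} [NeZero n] (a : ZMod n) (ha : a ≠ 0) :
    (a - 1).valMinAbs.natAbs + 1 ≤ a.valMinAbs.natAbs ∨
    (a + 1).valMinAbs.natAbs + 1 ≤ a.valMinAbs.natAbs := by
  have hs := (ZMod.valMinAbs_spec a a.valMinAbs).1 rfl
  obtain ⟨h1, h2, h3⟩ := hs
  have hn : 0 < n := Nat.pos_of_ne_zero (NeZero.ne n)
  have hv : a.valMinAbs ≠ 0 := by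
    intro h
    exact ha ((ZMod.valMinAbs_eq_zero a).1 h)
  rcases lt_or_gt_of_ne hv with h | h
  · right
    have h4 : (a + 1).valMinAbs = a.valMinAbs + 1 := by
      rw [ZMod.valMinAbs_spec]
      refine ⟨?_, ?_, ?_⟩
      · push_cast
        rfl
      · omega
      · omega
    rw [h4]
    omega
  · left
    have h4 : (a - 1).valMinAbs = a.valMinAbs - 1 := by
      rw [ZMod.valMinAbs_spec]
      refine ⟨?_, ?_, ?_⟩
      · push_cast
        rfl
      · omega
      · omega
    rw [h4]
    omega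

/-- the sum of the absolute values of the coordinates -/
theorem RAW_walk {d n : ℕ} [NeZero n] (x : Site d n) (hx : x ≠ 0) : ∃ i : Fin d,
    (∑ k, (((x - ev i : Site d n) k).valMinAbs.natAbs) + 1 ≤ ∑ k, (x k).valMinAbs.natAbs) ∨
    (∑ k, (((x + ev i : Site d n) k).valMinAbs.natAbs) + 1 ≤ ∑ k, (x k).valMinAbs.natAbs) := by
  have h1 : ∃ i, x i ≠ 0 := by
    by_contra h
    push Not at h
    exact hx (funext h)
  obtain ⟨i, hi⟩ := h1
  refine ⟨i, ?_⟩
  rcases RAW_step (x i) hi with h | h
  · left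
    rw [← Finset.add_sum_erase _ _ (Finset.mem_univ i), ← Finset.add_sum_erase _ (fun k => (x k).valMinAbs.natAbs) (Finset.mem_univ i)]
    have h2 : ∑ k ∈ univ.erase i, ((x - ev i : Site d n) k).valMinAbs.natAbs = ∑ k ∈ univ.erase i, (x k).valMinAbs.natAbs := by
      refine Finset.sum_congr rfl fun k hk => ?_
      have hk' : k ≠ i := Finset.ne_of_mem_erase hk
      have : (x - ev i : Site d n) k = x k := by
        show x k - (ev i : Site d n) k = x k
        unfold ev
        rw [Pi.single_eq_of_ne hk', sub_zero]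
      rw [this]
    have h3 : (x - ev i : Site d n) i = x i - 1 := by
      show x i - (ev i : Site d n) i = x i - 1
      unfold ev
      rw [Pi.single_eq_same]
    rw [h2, h3]
    omega
  · right
    rw [← Finset.add_sum_erase _ _ (Finset.mem_univ i), ← Finset.add_sum_erase _ (fun k => (x k).valMinAbs.natAbs) (Finset.mem_univ i)]
    have h2 : ∑ k ∈ univ.erase i, ((x + ev i : Site d n) k).valMinAbs.natAbs = ∑ k ∈ univ.erase i, (x k).valMinAbs.natAbs := by
      refine Finset.sum_congr rfl fun k hk => ?_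
      have hk' : k ≠ i := Finset.ne_of_mem_erase hk
      have : (x + ev i : Site d n) k = x k := by
        show x k + (ev i : Site d n) k = x k
        unfold ev
        rw [Pi.single_eq_of_ne hk', add_zero]
      rw [this]
    have h3 : (x + ev i : Site d n) i = x i + 1 := by
      show x i + (ev i : Site d n) i = x i + 1
      unfold ev
      rw [Pi.single_eq_same]
    rw [h2, h3]
    omega

theorem RAW_arith (c1x c2x c1y c2y D M m : ℝ) (hM : 0 < M) (hD : 0 ≤ D) (h1 : M ≤ c1x) (h2 : M ≤ c1y)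
    (h3 : |c1y * c2x - c2y * c1x| ≤ D) (h4 : c1y * (1 - m * D / M ^ 2) ≤ c2y) :
    c1x * (1 - (m + 1) * D / M ^ 2) ≤ c2x := by
  have hx : 0 < c1x := lt_of_lt_of_le hM h1
  have hy : 0 < c1y := lt_of_lt_of_le hM h2
  have h5 : c2y * c1x - D ≤ c1y * c2x := by
    have := (abs_le.1 h3).1
    linarith
  have h6 : c1y * (1 - m * D / M ^ 2) * c1x ≤ c2y * c1x := mul_le_mul_of_nonneg_right h4 hx.le
  have h7 : D ≤ c1y * (c1x * (D / M ^ 2)) := by
    have h8 : M * (M * (D / M ^ 2)) ≤ c1y * (c1x * (D / M ^ 2)) := by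
      have h9 : 0 ≤ D / M ^ 2 := by positivity
      exact mul_le_mul h2 (mul_le_mul_of_nonneg_right h1 h9) (by positivity) hy.le
    have h9 : M * (M * (D / M ^ 2)) = D := by
      field_simp
    linarith
  have h8 : c1y * (c1x * (1 - (m + 1) * D / M ^ 2)) ≤ c1y * c2x := by
    have e1 : c1y * (c1x * (1 - (m + 1) * D / M ^ 2)) = c1y * (1 - m * D / M ^ 2) * c1x - c1y * (c1x * (D / M ^ 2)) := by ring
    rw [e1]
    linarith
  exact le_of_mul_le_mul_left h8 hy

theorem RAW : RAW_stmt := by
  intro d n _ hn c1 c2 D μ R hμ hD0 h10 h20 hc hstep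
  have hM : 0 < μ ^ 2 := by positivity
  have hnrm : ∀ x : Site d n, nrm x = ((∑ k, (x k).valMinAbs.natAbs : ℕ) : ℝ) := by
    intro x
    unfold nrm
    push_cast
    rfl
  have hmain : ∀ (m : ℕ) (x : Site d n), (∑ k, (x k).valMinAbs.natAbs) ≤ m → nrm x ≤ R →
      c1 x * (1 - (m : ℝ) * D / (μ ^ 2) ^ 2) ≤ c2 x := by
    intro m
    induction m with
    | zero =>
      intro x hx _
      have hx0 : x = 0 := by
        funext k
        have h3 : (x k).valMinAbs.natAbs = 0 := by
          have h4 : (x k).valMinAbs.natAbs ≤ ∑ k, (x k).valMinAbs.natAbs :=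
            Finset.single_le_sum (f := fun k => (x k).valMinAbs.natAbs) (fun j _ => Nat.zero_le _) (Finset.mem_univ k)
          omega
        have h5 : (x k).valMinAbs = 0 := Int.natAbs_eq_zero.1 h3
        exact (ZMod.valMinAbs_eq_zero _).1 h5
      rw [hx0, h10, h20]
      simp
    | succ m ih =>
      intro x hx hxR
      by_cases hx0 : x = 0
      · rw [hx0, h10, h20]
        have : 0 ≤ ((m + 1 : ℕ) : ℝ) * D / (μ ^ 2) ^ 2 := by positivity
        linarith
      have hle : ∀ z : Site d n, (∑ k, (z k).valMinAbs.natAbs) + 1 ≤ ∑ k, (x k).valMinAbs.natAbs → nrm z ≤ R := by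
        intro z hz
        refine le_trans ?_ hxR
        rw [hnrm, hnrm]
        exact_mod_cast (by omega : (∑ k, (z k).valMinAbs.natAbs) ≤ ∑ k, (x k).valMinAbs.natAbs)
      obtain ⟨i, h3 | h3⟩ := RAW_walk x hx0
      · have hR := hle _ h3
        have h4 := ih (x - ev i) (by omega) hR
        have h5 := hstep (x - ev i) i hR (by rw [sub_add_cancel]; exact hxR)
        rw [sub_add_cancel] at h5
        push_cast
        exact RAW_arith _ _ _ _ _ _ _ hM hD0 (hc x hxR) (hc (x - ev i) hR) h5 h4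
      · have hR := hle _ h3
        have h4 := ih (x + ev i) (by omega) hR
        have h5 := hstep x i hxR hR
        push_cast
        refine RAW_arith _ _ (c1 (x + ev i)) (c2 (x + ev i)) _ _ _ hM hD0 (hc x hxR) (hc (x + ev i) hR) ?_ h4
        rw [abs_sub_comm]
        have e1 : c2 (x + ev i) * c1 x - c1 (x + ev i) * c2 x =
          c1 x * c2 (x + ev i) - c2 x * c1 (x + ev i) := by ring
        rw [e1]
        exact h5
  intro x hxR
  have h3 := hmain (∑ k, (x k).valMinAbs.natAbs) x le_rfl hxR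
  have e2 : μ ^ 4 = (μ ^ 2) ^ 2 := by ring
  rw [e2, hnrm x]
  exact h3

end CO
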